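import Mathlib
import Pool.Agent.N792.BS
import Pool.Agent.N138.Gap.G2

/-!
The double large sieve on short blocks of the first variable (helper291, subtask 5788).
-/

set_option autoImplicit false
set_option maxHeartbeats 4000000

namespace Pool.Agent.N291.X3
open Finset Filter Topology
open Pool.Agent.N792
open Pool.Agent.H469R2.NK (e norm_e e_add e_zero)

/-- the bilinear estimate, `r` in a short interval `(J0, J0 + J1]` -/
theorem bsU (J K J0 J1 : ℕ) (θ : ℝ) (R S : Finset ℕ) (b : ℕ → ℂ) (hJ : 1 ≤ J) (hK : 1 ≤ K) (hJ0 : J ≤ J0)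
    (hJ1 : 1 ≤ J1) (hθ : 0 < θ) (hR : ∀ r ∈ R, J0 < r ∧ r ≤ J0 + J1) (hR2 : ∀ r ∈ R, r ≤ 2 * J)
    (hS : ∀ s ∈ S, K < s ∧ s ≤ 2 * K) (hb : ∀ s ∈ S, ‖b s‖ ≤ 1) :
    ‖∑ r ∈ R, ∑ s ∈ S, b s * e (θ * (√(r : ℝ) * √(s : ℝ)))‖ ^ 2 ≤
      9600 * J1 * K * (1 + √((J : ℝ) / K) / θ) * (1 + θ * J1 * √((K : ℝ) / J) + K) := by
  have hJr : (0 : ℝ) < J := by exact_mod_cast (show 0 < J by omega)
  have hK0 : (0 : ℝ) < K := by exact_mod_cast (show 0 < K by omega)
  have hK1 : (1 : ℝ) ≤ K := by exact_mod_cast hK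
  have hJ1r : (0 : ℝ) < J1 := by exact_mod_cast (show 0 < J1 by omega)
  obtain ⟨j, hj⟩ : ∃ j : ℝ, j = √(J : ℝ) := ⟨_, rfl⟩
  obtain ⟨k, hk⟩ : ∃ k : ℝ, k = √(K : ℝ) := ⟨_, rfl⟩
  obtain ⟨w, hw⟩ : ∃ w : ℝ, w = √(2 : ℝ) := ⟨_, rfl⟩
  have hj0 : 0 < j := by rw [hj]; exact Real.sqrt_pos.2 hJr
  have hk0 : 0 < k := by rw [hk]; exact Real.sqrt_pos.2 hK0
  have hw0 : 0 < w := by rw [hw]; positivity
  have hjj : j * j = J := by rw [hj]; exact Real.mul_self_sqrt hJr.le
  have hkk : k * k = K := by rw [hk]; exact Real.mul_self_sqrt hK0.le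
  have hww : w * w = 2 := by rw [hw]; exact Real.mul_self_sqrt (by norm_num)
  have hw2 : w ≤ 2 := by nlinarith
  have hJdK : √((J : ℝ) / K) = j / k := by rw [hj, hk, Real.sqrt_div hJr.le]
  have hKdJ : √((K : ℝ) / J) = k / j := by rw [hj, hk, Real.sqrt_div hK0.le]
  have hrle : ∀ r ∈ R, √(r : ℝ) ≤ w * j := by
    intro r hr
    rw [hw, hj, ← Real.sqrt_mul (by norm_num)]
    apply Real.sqrt_le_sqrt
    exact_mod_cast (hR2 r hr)
  have hsle : ∀ s ∈ S, √(s : ℝ) ≤ w * k := by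
    intro s hs
    rw [hw, hk, ← Real.sqrt_mul (by norm_num)]
    apply Real.sqrt_le_sqrt
    exact_mod_cast (hS s hs).2
  obtain ⟨j0, hj0'⟩ : ∃ j0 : ℝ, j0 = √(J0 : ℝ) := ⟨_, rfl⟩
  have hjj0 : j ≤ j0 := by
    rw [hj, hj0']; apply Real.sqrt_le_sqrt; exact_mod_cast hJ0
  have hrge : ∀ r ∈ R, j0 ≤ √(r : ℝ) := by
    intro r hr
    rw [hj0']; apply Real.sqrt_le_sqrt; exact_mod_cast (hR r hr).1.le
  have hj00 : j0 * j0 = J0 := by rw [hj0']; exact Real.mul_self_sqrt (Nat.cast_nonneg _)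
  have hxr : ∀ r ∈ R, √(r : ℝ) - j0 ≤ J1 / (2 * j) := by
    intro r hr
    rw [le_div_iff₀ (by positivity)]
    have a1 := Real.mul_self_sqrt (Nat.cast_nonneg (α := ℝ) r)
    have a2 := hrge r hr
    have a3 : (r : ℝ) ≤ J0 + J1 := by exact_mod_cast (hR r hr).2
    have a4 : (√(r : ℝ) - j0) * (2 * j) ≤ (√(r : ℝ) - j0) * (√(r : ℝ) + j0) :=
      mul_le_mul_of_nonneg_left (by linarith) (by linarith)
    nlinarith
  obtain ⟨Y, hY⟩ : ∃ Y : ℝ, Y = θ * (w * k) := ⟨_, rfl⟩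
  have hY0 : 0 < Y := by rw [hY]; positivity
  obtain ⟨J', hJ'⟩ : ∃ J' : ℕ, J' = ⌊4 * θ * J1 * (k / j)⌋₊ + 1 := ⟨_, rfl⟩
  have hJ'1 : 1 ≤ J' := by omega
  have hJ'0 : (0 : ℝ) < J' := by exact_mod_cast hJ'1
  have hJ'lt : 4 * θ * J1 * (k / j) < J' := by rw [hJ']; push_cast; exact Nat.lt_floor_add_one _
  have hJ'le : (J' : ℝ) ≤ 4 * θ * J1 * (k / j) + 1 := by
    rw [hJ']; push_cast
    have := Nat.floor_le (show 0 ≤ 4 * θ * J1 * (k / j) by positivity)
    linarith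
  have hx : ∀ r ∈ R, 0 ≤ √(r : ℝ) - j0 ∧ (√(r : ℝ) - j0) * (4 * Y) < J' := by
    intro r hr
    refine ⟨by linarith [hrge r hr], ?_⟩
    calc (√(r : ℝ) - j0) * (4 * Y) ≤ (J1 / (2 * j)) * (4 * Y) :=
          mul_le_mul_of_nonneg_right (hxr r hr) (by positivity)
      _ = 2 * w * (θ * J1 * (k / j)) := by rw [hY]; field_simp; ring
      _ ≤ 2 * 2 * (θ * J1 * (k / j)) := by gcongr
      _ = 4 * θ * J1 * (k / j) := by ring
      _ < J' := hJ'lt
  have hy : ∀ s ∈ S, 0 ≤ θ * √(s : ℝ) ∧ θ * √(s : ℝ) ≤ Y := by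
    intro s hs
    refine ⟨by positivity, ?_⟩
    rw [hY]
    gcongr
    exact hsle s hs
  -- the numbers
  have hRcard : (#R : ℝ) ≤ J1 := by
    have h1 : R ⊆ Ioc J0 (J0 + J1) := fun r hr => mem_Ioc.2 (hR r hr)
    have h2 := Finset.card_le_card h1
    rw [Nat.card_Ioc, Nat.add_sub_cancel_left] at h2
    exact_mod_cast h2
  have hScard : (#S : ℝ) ≤ 3 * K := by
    have h1 : S ⊆ Ioc K (2 * K) := fun s hs => mem_Ioc.2 (hS s hs)
    have h2 := Finset.card_le_card h1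
    rw [Nat.card_Ioc] at h2
    have h3 : #S ≤ 3 * K := by omega
    exact_mod_cast h3
  obtain ⟨H, hH⟩ : ∃ H : ℝ, H = j / (2 * θ * k) := ⟨_, rfl⟩
  have hH0 : 0 < H := by rw [hH]; positivity
  have hNx : (#((R ×ˢ R).filter (fun v => |(√(v.1 : ℝ) - j0) - (√(v.2 : ℝ) - j0)| ≤ 1 / (4 * Y))) : ℝ) ≤
      J1 * (1 + 2 * H) := by
    classical
    have h1 : (#((R ×ˢ R).filter (fun v => |(√(v.1 : ℝ) - j0) - (√(v.2 : ℝ) - j0)| ≤ 1 / (4 * Y))) : ℝ) =
        ∑ r ∈ R, ∑ r' ∈ R, if |√(r : ℝ) - √(r' : ℝ)| ≤ 1 / (4 * Y) then (1 : ℝ) else 0 := by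
      rw [Finset.card_filter]
      push_cast
      rw [Finset.sum_product]
      refine Finset.sum_congr rfl fun r _ => Finset.sum_congr rfl fun r' _ => ?_
      rw [sub_sub_sub_cancel_right]
    rw [h1]
    have h2 : ∀ r ∈ R, (∑ r' ∈ R, if |√(r : ℝ) - √(r' : ℝ)| ≤ 1 / (4 * Y) then (1 : ℝ) else 0) ≤
        1 + 2 * H := by
      intro r hr
      rw [← Finset.sum_filter]
      have hdist : ∀ r' ∈ R.filter (fun r' => |√(r : ℝ) - √((r' : ℕ) : ℝ)| ≤ 1 / (4 * Y)),
          |(r : ℝ) - r'| ≤ H := by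
        intro r' hr'
        obtain ⟨hr'R, hr'd⟩ := mem_filter.1 hr'
        have e1 : (r : ℝ) - r' = (√(r : ℝ) - √(r' : ℝ)) * (√(r : ℝ) + √(r' : ℝ)) := by
          have a1 := Real.mul_self_sqrt (Nat.cast_nonneg (α := ℝ) r)
          have a2 := Real.mul_self_sqrt (Nat.cast_nonneg (α := ℝ) r')
          nlinarith
        rw [e1, abs_mul, abs_of_nonneg (show 0 ≤ √(r : ℝ) + √(r' : ℝ) by positivity)]
        calc |√(r : ℝ) - √(r' : ℝ)| * (√(r : ℝ) + √(r' : ℝ)) ≤ 1 / (4 * Y) * (w * j + w * j) := by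
              gcongr
              · exact hrle r hr
              · exact hrle r' hr'R
          _ = H := by rw [hY, hH]; field_simp; ring
      have h3 := bs_two_sided (R.filter (fun r' => |√(r : ℝ) - √((r' : ℕ) : ℝ)| ≤ 1 / (4 * Y))) r 1
        ⌊H⌋₊ one_pos (fun _ => 1) (fun _ => 1) 1 (by norm_num) (fun _ => by norm_num)
        (fun s' hs' => Nat.modEq_one)
        (fun s' hs' => by
          rw [Nat.div_one]
          apply Nat.le_floor
          have := hdist s' hs'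
          rcases le_total s' r with h | h
          · rw [Nat.sub_eq_zero_of_le h]; simpa using hH0.le
          · rw [Nat.cast_sub h]; rw [abs_le] at this; linarith)
        (fun s' hs' => by
          rw [Nat.div_one]
          apply Nat.le_floor
          have := hdist s' hs'
          rcases le_total r s' with h | h
          · rw [Nat.sub_eq_zero_of_le h]; simpa using hH0.le
          · rw [Nat.cast_sub h]; rw [abs_le] at this; linarith)
        (fun _ => le_rfl) (fun _ _ _ => le_rfl) (fun _ _ _ => le_rfl)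
      refine h3.trans ?_
      simp only [Finset.sum_const, nsmul_eq_mul, mul_one, Nat.card_Icc, Nat.add_sub_cancel]
      have := Nat.floor_le hH0.le
      linarith
    calc _ ≤ ∑ _r ∈ R, (1 + 2 * H) := Finset.sum_le_sum h2
      _ = #R * (1 + 2 * H) := by rw [Finset.sum_const, nsmul_eq_mul]
      _ ≤ _ := by gcongr
  have hNy : ∑ s ∈ S, ∑ s' ∈ S, ‖∑ p ∈ range (2 * J'), e (1 / (4 * Y) * p * (θ * √(s : ℝ) - θ * √(s' : ℝ)))‖ ^ 2 ≤
      J' * (3 * (K : ℝ) * (4 * J' + 128 * K)) := by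
    have h2 : ∀ s ∈ S, ∑ s' ∈ S, ‖∑ p ∈ range (2 * J'), e (1 / (4 * Y) * p * (θ * √(s : ℝ) - θ * √(s' : ℝ)))‖ ^ 2 ≤
        4 * (J' : ℝ) ^ 2 + 128 * J' * K := by
      intro s hs
      obtain ⟨F, hF⟩ : ∃ F : ℕ → ℝ, F = fun s' : ℕ => ‖∑ p ∈ range (2 * J'),
        e (1 / (4 * Y) * p * (θ * √(s : ℝ) - θ * √(s' : ℝ)))‖ := ⟨_, rfl⟩
      have hFt : ∀ s', F s' ≤ 2 * J' := by
        intro s'
        rw [hF]
        refine (norm_sum_le _ _).trans ?_
        simp only [norm_e, Finset.sum_const, card_range, nsmul_eq_mul, mul_one]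
        push_cast; exact le_rfl
      have hF0 : ∀ s', 0 ≤ F s' := by intro s'; rw [hF]; exact norm_nonneg _
      have hFd : ∀ s' ∈ S, s' ≠ s → F s' * |(s : ℝ) - s'| ≤ 8 * K := by
        intro s' hs' hne
        obtain ⟨t, ht⟩ : ∃ t : ℝ, t = 1 / (4 * Y) * (θ * √(s : ℝ) - θ * √(s' : ℝ)) := ⟨_, rfl⟩
        have hteq : t = (√(s : ℝ) - √(s' : ℝ)) / (4 * (w * k)) := by
          rw [ht, hY]; field_simp
        have hsne : (s : ℝ) - s' ≠ 0 := by
          rw [sub_ne_zero]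
          intro h
          exact hne (by exact_mod_cast h.symm)
        have hsqr : (s : ℝ) - s' = (√(s : ℝ) - √(s' : ℝ)) * (√(s : ℝ) + √(s' : ℝ)) := by
          have a1 := Real.mul_self_sqrt (Nat.cast_nonneg (α := ℝ) s)
          have a2 := Real.mul_self_sqrt (Nat.cast_nonneg (α := ℝ) s')
          nlinarith
        have hne2 : √(s : ℝ) - √(s' : ℝ) ≠ 0 := by
          intro h; rw [h, zero_mul] at hsqr; exact hsne hsqr
        have ht0 : t ≠ 0 := by rw [hteq]; exact div_ne_zero hne2 (by positivity)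
        have htle : |t| ≤ 1 / 4 := by
          rw [hteq, abs_div, abs_of_pos (show 0 < 4 * (w * k) by positivity), div_le_div_iff₀ (by positivity) (by norm_num)]
          have h1 := hsle s hs
          have h2 := hsle s' hs'
          have h3 : |√(s : ℝ) - √(s' : ℝ)| ≤ w * k := by
            rw [abs_le]
            constructor <;> linarith [Real.sqrt_nonneg (s : ℝ), Real.sqrt_nonneg (s' : ℝ)]
          linarith
        have hg := bs_geom (2 * J') t htle ht0
        have hFe : F s' = ‖∑ p ∈ range (2 * J'), e (p * t)‖ := by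
          rw [hF]
          simp only
          congr 2
          funext p
          rw [ht]; congr 1; ring
        rw [hFe]
        have htabs : 0 < |t| := abs_pos.2 ht0
        have hst : |(s : ℝ) - s'| ≤ 16 * K * |t| := by
          rw [hsqr, abs_mul, abs_of_nonneg (show 0 ≤ √(s : ℝ) + √(s' : ℝ) by positivity), hteq, abs_div,
            abs_of_pos (show 0 < 4 * (w * k) by positivity)]
          have h1 := hsle s hs
          have h2 := hsle s' hs'
          calc |√(s : ℝ) - √(s' : ℝ)| * (√(s : ℝ) + √(s' : ℝ)) ≤ |√(s : ℝ) - √(s' : ℝ)| * (w * k + w * k) := by gcongr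
            _ = 16 * (k * k) * (|√(s : ℝ) - √(s' : ℝ)| / (4 * (w * k))) * ((w * w) / 2) := by
                field_simp
                ring
            _ = _ := by rw [hkk, hww]; ring
        calc _ ≤ 1 / (2 * |t|) * (16 * K * |t|) := by gcongr
          _ = 8 * K := by field_simp; ring
      obtain ⟨a1, ha1⟩ : ∃ a1 : ℝ, a1 = 2 * J' := ⟨_, rfl⟩
      obtain ⟨b1, hb1⟩ : ∃ b1 : ℝ, b1 = 8 * (K : ℝ) := ⟨_, rfl⟩
      have ha10 : 0 < a1 := by rw [ha1]; positivity
      have hb10 : 0 < b1 := by rw [hb1]; positivity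
      have hFG : ∀ s' ∈ S, s' ≠ s → ∀ m : ℕ, (m : ℝ) = |(s : ℝ) - s'| →
          F s' ^ 2 ≤ 4 * a1 ^ 2 * b1 ^ 2 / (b1 + a1 * m) ^ 2 := by
        intro s' hs' hne m hm
        have h1 := hFd s' hs' hne
        rw [← hm] at h1
        have h2 : F s' * m ≤ b1 := by
          rw [hb1]; exact h1
        have h3 : F s' ≤ a1 := by rw [ha1]; exact hFt s'
        have h4 : F s' * (b1 + a1 * m) ≤ 2 * a1 * b1 := by nlinarith [hF0 s']
        rw [le_div_iff₀ (by positivity), ← mul_pow]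
        calc (F s' * (b1 + a1 * m)) ^ 2 ≤ (2 * a1 * b1) ^ 2 := by
              apply pow_le_pow_left₀ _ h4
              have := hF0 s'
              positivity
          _ = _ := by ring
      have h3 := bs_two_sided S s 1 K one_pos (fun m => 4 * a1 ^ 2 * b1 ^ 2 / (b1 + a1 * m) ^ 2) (fun s' => F s' ^ 2)
        (a1 ^ 2) (by positivity) (fun m => by positivity) (fun s' hs' => Nat.modEq_one)
        (fun s' hs' => by
          rw [Nat.div_one]
          have := hS s hs; have := hS s' hs'; omega)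
        (fun s' hs' => by
          rw [Nat.div_one]
          have := hS s hs; have := hS s' hs'; omega)
        (fun _ => by
          apply pow_le_pow_left₀ (hF0 s)
          rw [ha1]; exact hFt s)
        (fun s' hs' hlt => by
          rw [Nat.div_one]
          apply hFG s' hs' (by omega)
          rw [Nat.cast_sub hlt.le, abs_sub_comm, abs_of_nonneg]
          have : (s : ℝ) ≤ s' := by exact_mod_cast hlt.le
          linarith)
        (fun s' hs' hlt => by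
          rw [Nat.div_one]
          apply hFG s' hs' (by omega)
          rw [Nat.cast_sub hlt.le, abs_of_nonneg]
          have : (s' : ℝ) ≤ s := by exact_mod_cast hlt.le
          linarith)
      have h4 := bs_tail a1 b1 ha10 hb10 K
      have h5 : ∑ s' ∈ S, F s' ^ 2 ≤ 4 * (J' : ℝ) ^ 2 + 128 * J' * K := by
        calc _ ≤ _ := h3
          _ ≤ a1 ^ 2 + 2 * (4 * (a1 * b1)) := by linarith
          _ = _ := by rw [ha1, hb1]; ring
      rw [hF] at h5
      exact h5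
    calc _ ≤ ∑ _s ∈ S, (4 * (J' : ℝ) ^ 2 + 128 * J' * K) := Finset.sum_le_sum h2
      _ = #S * (4 * (J' : ℝ) ^ 2 + 128 * J' * K) := by rw [Finset.sum_const, nsmul_eq_mul]
      _ ≤ (3 * (K : ℝ)) * (4 * (J' : ℝ) ^ 2 + 128 * J' * K) := by gcongr
      _ = _ := by ring
  have hmain := Pool.Agent.H373R2.T4.dls R S (fun r => √(r : ℝ) - j0) (fun s => θ * √(s : ℝ)) (fun _ => 1)
    (fun s => b s * e (j0 * (θ * √(s : ℝ)))) Y hY0 J' hJ'1
    hx hy 1 1 (fun _ _ => by simp) (fun s hs => by rw [norm_mul, norm_e, mul_one]; exact hb s hs) zero_le_one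
    zero_le_one _ _ hNx hNy
  have heq : ∑ r ∈ R, ∑ s ∈ S, b s * e (θ * (√(r : ℝ) * √(s : ℝ))) =
      ∑ r ∈ R, ∑ s ∈ S, 1 * (b s * e (j0 * (θ * √(s : ℝ)))) * e ((√(r : ℝ) - j0) * (θ * √(s : ℝ))) := by
    refine Finset.sum_congr rfl fun r _ => Finset.sum_congr rfl fun s _ => ?_
    rw [one_mul, mul_assoc, ← e_add]
    congr 2; ring
  rw [heq]
  refine hmain.trans ?_
  rw [hKdJ, hJdK]
  have hHq : 2 * H = j / k / θ := by rw [hH]; field_simp
  rw [hHq]
  have h7 : 4 * (J' : ℝ) + 128 * K ≤ 128 * (1 + θ * J1 * (k / j) + K) := by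
    have : 0 < θ * J1 * (k / j) := by positivity
    nlinarith
  calc 25 * (1 ^ 2 * (J1 * (1 + j / k / θ)) *
        (1 ^ 2 * (3 * (K : ℝ) * (4 * J' + 128 * K))))
      ≤ 25 * (1 ^ 2 * (J1 * (1 + j / k / θ)) *
        (1 ^ 2 * (3 * (K : ℝ) * (128 * (1 + θ * J1 * (k / j) + K))))) := by gcongr
    _ = _ := by ring

end Pool.Agent.N291.X3
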