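import Mathlib
import Pool.Agent.N291.X3.A
import Pool.Agent.N792.Tri

/-!
The number of the values `a n² + b n + c` near a product `r s`, uniformly in `b`, `b² ≤ Λ x` (helper291, subtask 5788).
-/

set_option autoImplicit false
set_option maxHeartbeats 4000000

namespace Pool.Agent.N291.X3
open Finset Filter Topology
open Pool.Agent.N792 Pool.Agent.N792.Gap
open Pool.Agent.H469R2.NK (e)

/-- the exponential sum over a block -/
theorem exp_blk (a m x X ρ D : ℝ) (ha : 1 ≤ a) (hm : 1 ≤ m) (J K J0 J1 h : ℕ) (hx : 1 ≤ x) (hX : 1 ≤ X)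
    (hD : D = 9600 * m * (1 + 2 * √m * √a) * (2 * m * √m)) (hρ : 0 < ρ)
    (hJ : 1 ≤ J) (hK : 1 ≤ K) (hJ0 : J ≤ J0) (hJ1 : 1 ≤ J1) (hJρ : (J1 : ℝ) ≤ ρ * J) (hJK : (J : ℝ) * K ≤ m * x ^ 2)
    (hJm : (J : ℝ) ≤ m * (x * X)) (hKm : (K : ℝ) ≤ m * (x * X)) (hKx : x ≤ 4 * K * X) (hJx : x ≤ 4 * J * X)
    (R S : Finset ℕ) (b : ℕ → ℂ) (hR : ∀ r ∈ R, J0 < r ∧ r ≤ J0 + J1) (hR2 : ∀ r ∈ R, r ≤ 2 * J)
    (hS : ∀ s ∈ S, K < s ∧ s ≤ 2 * K) (hb : ∀ s ∈ S, ‖b s‖ ≤ 1) (hh : 1 ≤ h) :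
    ‖∑ r ∈ R, ∑ s ∈ S, b s * e (h / √a * (√(r : ℝ) * √(s : ℝ)))‖ ≤
      √(D * (x ^ 3 * X ^ 3)) * (ρ * √(h : ℝ) + 1 / √(h : ℝ)) := by
  have hxp : 0 < x := by linarith
  have hX0 : 0 < X := by linarith
  have hJr : (1 : ℝ) ≤ J := by exact_mod_cast hJ
  have hKr : (1 : ℝ) ≤ K := by exact_mod_cast hK
  have hhr : (1 : ℝ) ≤ h := by exact_mod_cast hh
  have hsa : 1 ≤ √a := by rw [Real.one_le_sqrt]; exact ha
  have hsa0 : 0 < √a := by linarith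
  have hsm : 1 ≤ √m := by rw [Real.one_le_sqrt]; exact hm
  have key := bsU J K J0 J1 (h / √a) R S b hJ hK hJ0 hJ1 (by positivity) hR hR2 hS hb
  -- the ratios
  have ratio : ∀ J K : ℝ, 0 < K → J ≤ m * (x * X) → x ≤ 4 * K * X → √(J / K) ≤ 2 * √m * X := by
    intro J K hK hJ hK'
    apply Real.sqrt_le_iff.2
    refine ⟨by positivity, ?_⟩
    rw [div_le_iff₀ hK]
    have : (2 * √m * X) ^ 2 * K = m * X * (4 * K * X) := by
      rw [mul_pow, mul_pow, Real.sq_sqrt (by linarith)]; ring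
    rw [this]
    calc J ≤ m * (x * X) := hJ
      _ = m * X * x := by ring
      _ ≤ m * X * (4 * K * X) := mul_le_mul_of_nonneg_left hK' (by positivity)
  have f1 := ratio J K (by linarith) hJm hKx
  have f1' := ratio K J (by linarith) hKm hJx
  have f2 : 1 + √((J : ℝ) / K) / (h / √a) ≤ (1 + 2 * √m * √a) * X := by
    have : √((J : ℝ) / K) / (h / √a) ≤ 2 * √m * X * √a := by
      rw [div_div_eq_mul_div, div_le_iff₀ (by linarith)]
      calc √((J : ℝ) / K) * √a ≤ 2 * √m * X * √a := mul_le_mul_of_nonneg_right f1 hsa0.le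
        _ ≤ 2 * √m * X * √a * h := le_mul_of_one_le_right (by positivity) hhr
    calc _ ≤ 1 + 2 * √m * X * √a := by linarith
      _ ≤ X + 2 * √m * X * √a := by linarith
      _ = _ := by ring
  have f3 : h / √a * J1 * √((K : ℝ) / J) ≤ 2 * m * √m * (x * X ^ 2) * (h * ρ) := by
    have h1 : (h : ℝ) / √a ≤ h := div_le_self (by linarith) hsa
    have h2 : (J1 : ℝ) ≤ ρ * (m * (x * X)) := hJρ.trans (mul_le_mul_of_nonneg_left hJm hρ.le)
    calc h / √a * J1 * √((K : ℝ) / J) ≤ h * (ρ * (m * (x * X))) * (2 * √m * X) := by gcongr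
      _ = _ := by ring
  have f4 : 1 + h / √a * J1 * √((K : ℝ) / J) + K ≤ 2 * m * √m * (x * X ^ 2) * (h * ρ + 1) := by
    have g1 : (K : ℝ) ≤ m * √m * (x * X ^ 2) := by
      calc (K : ℝ) ≤ m * (x * X) := hKm
        _ ≤ m * (x * X) * (√m * X) := le_mul_of_one_le_right (by positivity) (one_le_mul_of_one_le_of_one_le hsm hX)
        _ = _ := by ring
    linarith
  have f5 : ‖∑ r ∈ R, ∑ s ∈ S, b s * e (h / √a * (√(r : ℝ) * √(s : ℝ)))‖ ^ 2 ≤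
      D * (x ^ 3 * X ^ 3) * (ρ * (h * ρ + 1)) := by
    refine key.trans ?_
    have g1 : (J1 : ℝ) * K ≤ ρ * (m * x ^ 2) := by
      calc (J1 : ℝ) * K ≤ ρ * J * K := by gcongr
        _ = ρ * (J * K) := by ring
        _ ≤ _ := mul_le_mul_of_nonneg_left hJK hρ.le
    calc 9600 * J1 * K * (1 + √((J : ℝ) / K) / (h / √a)) * (1 + h / √a * J1 * √((K : ℝ) / J) + K)
        = 9600 * (J1 * K) * (1 + √((J : ℝ) / K) / (h / √a)) * (1 + h / √a * J1 * √((K : ℝ) / J) + K) := by ring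
      _ ≤ 9600 * (ρ * (m * x ^ 2)) * ((1 + 2 * √m * √a) * X) * (2 * m * √m * (x * X ^ 2) * (h * ρ + 1)) := by
          have h1 : 0 ≤ √((J : ℝ) / K) / (h / √a) := by positivity
          have h2 : 0 ≤ h / √a * J1 * √((K : ℝ) / J) := by positivity
          gcongr
      _ = _ := by rw [hD]; ring
  have hD0 : 0 ≤ D := by rw [hD]; positivity
  have hsh : 0 < √(h : ℝ) := Real.sqrt_pos.2 (by linarith)
  have hshh : √(h : ℝ) * √(h : ℝ) = h := Real.mul_self_sqrt (by linarith)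
  have f6 : ρ * (h * ρ + 1) ≤ (ρ * √(h : ℝ) + 1 / √(h : ℝ)) ^ 2 := by
    have e1 : (ρ * √(h : ℝ) + 1 / √(h : ℝ)) ^ 2 = ρ ^ 2 * (√(h : ℝ) * √(h : ℝ)) + 2 * ρ + (1 / √(h : ℝ)) ^ 2 := by
      field_simp; ring
    rw [e1, hshh]
    have : 0 ≤ (1 / √(h : ℝ)) ^ 2 := sq_nonneg _
    nlinarith
  have f7 : ‖∑ r ∈ R, ∑ s ∈ S, b s * e (h / √a * (√(r : ℝ) * √(s : ℝ)))‖ ^ 2 ≤
      (√(D * (x ^ 3 * X ^ 3)) * (ρ * √(h : ℝ) + 1 / √(h : ℝ))) ^ 2 := by
    rw [mul_pow, Real.sq_sqrt (by positivity)]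
    exact f5.trans (mul_le_mul_of_nonneg_left f6 (by positivity))
  exact (abs_le_of_sq_le_sq' f7 (by positivity)).2

theorem tri_blk (a m x X ρ D : ℝ) (ha : 1 ≤ a) (hm : 1 ≤ m) (J K J0 J1 : ℕ) (hx : 1 ≤ x) (hX : 1 ≤ X)
    (hD : D = 9600 * m * (1 + 2 * √m * √a) * (2 * m * √m)) (hρ : 0 < ρ)
    (hJ : 1 ≤ J) (hK : 1 ≤ K) (hJ0 : J ≤ J0) (hJ1 : 1 ≤ J1) (hJρ : (J1 : ℝ) ≤ ρ * J) (hJK : (J : ℝ) * K ≤ m * x ^ 2)
    (hJm : (J : ℝ) ≤ m * (x * X)) (hKm : (K : ℝ) ≤ m * (x * X)) (hKx : x ≤ 4 * K * X) (hJx : x ≤ 4 * J * X)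
    (R S : Finset ℕ) (g : ℕ → ℝ) (hR : ∀ r ∈ R, J0 < r ∧ r ≤ J0 + J1) (hR2 : ∀ r ∈ R, r ≤ 2 * J)
    (hS : ∀ s ∈ S, K < s ∧ s ≤ 2 * K) (δ : ℝ) (hδ : 0 < δ) (hδ2 : δ ≤ 1 / 2) :
    ∑ r ∈ R, ∑ s ∈ S, tri δ (√(((r * s : ℕ) : ℝ) / a) + g s) ≤
      δ * (#R * #S) + 20 * (√(D * (x ^ 3 * X ^ 3)) * ρ / √δ + √(D * (x ^ 3 * X ^ 3)) * √δ) := by
  have key := tri_sum (R ×ˢ S) (fun _ => 1) (fun i => √(((i.1 * i.2 : ℕ) : ℝ) / a) + g i.2) δ
    (√(D * (x ^ 3 * X ^ 3)) * ρ) (√(D * (x ^ 3 * X ^ 3))) hδ hδ2 (by positivity) (by positivity) (by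
      intro h hh
      have h1 := exp_blk a m x X ρ D ha hm J K J0 J1 h hx hX hD hρ hJ hK hJ0 hJ1 hJρ hJK hJm hKm hKx hJx R S
        (fun s => e (h * g s)) hR hR2 hS (fun s _ => by rw [Pool.Agent.H469R2.NK.norm_e]) hh
      have h2 : ∑ i ∈ R ×ˢ S, (((1 : ℝ) : ℝ) : ℂ) * e (h * (√(((i.1 * i.2 : ℕ) : ℝ) / a) + g i.2)) =
          ∑ r ∈ R, ∑ s ∈ S, e (h * g s) * e (h / √a * (√(r : ℝ) * √(s : ℝ))) := by
        rw [Finset.sum_product]
        refine Finset.sum_congr rfl fun r _ => ?_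
        refine Finset.sum_congr rfl fun s _ => ?_
        rw [← Pool.Agent.H469R2.NK.e_add, Complex.ofReal_one, one_mul]
        congr 1
        push_cast
        rw [Real.sqrt_div (by positivity), Real.sqrt_mul (Nat.cast_nonneg r)]
        ring
      rw [h2]
      refine h1.trans (le_of_eq ?_)
      ring)
  have k1 := (abs_le.1 key).2
  simp only [one_mul, Finset.sum_const, Finset.card_product, nsmul_eq_mul, mul_one] at k1
  rw [Finset.sum_product] at k1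
  push_cast at k1 ⊢
  linarith

/-- the correction is smooth -/
lemma corr (a κ U N N' : ℝ) (ha : 0 < a) (hκ : 0 ≤ κ) (hU : 0 < U) (hN : a * U ^ 2 ≤ N) (hN' : a * U ^ 2 ≤ N') :
    |(√(N / a + κ) - √(N / a)) - (√(N' / a + κ) - √(N' / a))| ≤ κ * |N - N'| / (4 * a * U ^ 3) := by
  obtain ⟨u, hu⟩ : ∃ u : ℝ, u = √(N / a) := ⟨_, rfl⟩
  obtain ⟨u', hu'⟩ : ∃ u' : ℝ, u' = √(N' / a) := ⟨_, rfl⟩
  obtain ⟨w, hw⟩ : ∃ w : ℝ, w = √(N / a + κ) := ⟨_, rfl⟩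
  obtain ⟨w', hw'⟩ : ∃ w' : ℝ, w' = √(N' / a + κ) := ⟨_, rfl⟩
  rw [← hu, ← hu', ← hw, ← hw']
  have hNa : U ^ 2 ≤ N / a := by rw [le_div_iff₀ ha]; linarith
  have hNa' : U ^ 2 ≤ N' / a := by rw [le_div_iff₀ ha]; linarith
  have hU2 : 0 < U ^ 2 := by positivity
  have hUu : U ≤ u := by rw [hu]; exact Real.le_sqrt_of_sq_le hNa
  have hUu' : U ≤ u' := by rw [hu']; exact Real.le_sqrt_of_sq_le hNa'
  have hUw : U ≤ w := by rw [hw]; exact Real.le_sqrt_of_sq_le (by linarith)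
  have hUw' : U ≤ w' := by rw [hw']; exact Real.le_sqrt_of_sq_le (by linarith)
  have su : u * u = N / a := by rw [hu]; exact Real.mul_self_sqrt (by linarith)
  have su' : u' * u' = N' / a := by rw [hu']; exact Real.mul_self_sqrt (by linarith)
  have sw : w * w = N / a + κ := by rw [hw]; exact Real.mul_self_sqrt (by linarith)
  have sw' : w' * w' = N' / a + κ := by rw [hw']; exact Real.mul_self_sqrt (by linarith)
  obtain ⟨d, hd⟩ : ∃ d : ℝ, d = |N - N'| / a := ⟨_, rfl⟩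
  have hd0 : 0 ≤ d := by rw [hd]; positivity
  have hdd : d = |N / a - N' / a| := by rw [hd, ← sub_div, abs_div, abs_of_pos ha]
  have d1 : |u - u'| ≤ d / (2 * U) := by
    rw [le_div_iff₀ (by positivity), hdd, ← su, ← su']
    have : u * u - u' * u' = (u - u') * (u + u') := by ring
    rw [this, abs_mul, abs_of_pos (by linarith : 0 < u + u')]
    exact mul_le_mul_of_nonneg_left (by linarith) (abs_nonneg _)
  have d2 : |w - w'| ≤ d / (2 * U) := by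
    have e0 : N / a - N' / a = (N / a + κ) - (N' / a + κ) := by ring
    rw [le_div_iff₀ (by positivity), hdd, e0, ← sw, ← sw']
    have : w * w - w' * w' = (w - w') * (w + w') := by ring
    rw [this, abs_mul, abs_of_pos (by linarith : 0 < w + w')]
    exact mul_le_mul_of_nonneg_left (by linarith) (abs_nonneg _)
  have g1 : w - u = κ / (w + u) := by
    rw [eq_div_iff (by linarith)]; linarith
  have g1' : w' - u' = κ / (w' + u') := by
    rw [eq_div_iff (by linarith)]; linarith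
  have p1 : 0 < w + u := by linarith
  have p2 : 0 < w' + u' := by linarith
  have g2 : κ / (w + u) - κ / (w' + u') = κ * ((w' - w) + (u' - u)) / ((w + u) * (w' + u')) := by
    field_simp
    ring
  have g3 : |(w' - w) + (u' - u)| ≤ d / U := by
    have h1 := abs_add_le (w' - w) (u' - u)
    rw [abs_sub_comm w' w, abs_sub_comm u' u] at h1
    have : d / U = d / (2 * U) + d / (2 * U) := by field_simp; ring
    linarith
  rw [g1, g1', g2, abs_div, abs_mul, abs_of_nonneg hκ, abs_of_pos (mul_pos p1 p2)]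
  have e4 : κ * |N - N'| / (4 * a * U ^ 3) = κ * (d / U) / (4 * U ^ 2) := by
    rw [hd]; field_simp
  rw [e4]
  apply div_le_div₀ (by positivity) (mul_le_mul_of_nonneg_left g3 hκ) (by positivity)
  have : (2 * U) * (2 * U) ≤ (w + u) * (w' + u') :=
    mul_le_mul (by linarith) (by linarith) (by linarith) (by linarith)
  linarith

lemma near_intU (a b : ℤ) (ha : 0 < a) (R x1 x C N n : ℕ) (hx1 : x ≤ R * x1) (hbx : R * b.natAbs ≤ x)
    (hx : 1 ≤ x) (hn : x1 < n) (h0 : 0 < (N : ℤ) - fv a b 0 n) (h1 : (N : ℤ) - fv a b 0 n ≤ C) :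
    |(n : ℝ) - (√((N : ℝ) / a + (b : ℝ) ^ 2 / (4 * (a : ℝ) ^ 2)) - b / (2 * a))| ≤ R * (C / x) := by
  have har : (1 : ℝ) ≤ a := by exact_mod_cast ha
  have hxr : (1 : ℝ) ≤ x := by exact_mod_cast hx
  have hx1r : (x : ℝ) ≤ R * x1 := by exact_mod_cast hx1
  have hnr : (x1 : ℝ) ≤ n := by exact_mod_cast hn.le
  have hR0 : (0 : ℝ) ≤ R := Nat.cast_nonneg _
  have hRn : (x : ℝ) ≤ R * n := hx1r.trans (mul_le_mul_of_nonneg_left hnr hR0)
  have hbr : (R : ℝ) * |(b : ℝ)| ≤ x := by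
    have : ((R * b.natAbs : ℕ) : ℝ) ≤ x := by exact_mod_cast hbx
    rw [Nat.cast_mul, Nat.cast_natAbs, Int.cast_abs] at this
    exact this
  have hRpos : (0 : ℝ) < R := by
    rcases hR0.lt_or_eq with h | h
    · exact h
    · rw [← h] at hRn; linarith
  have hbn : |(b : ℝ)| ≤ n := by
    have := hbr.trans hRn
    exact le_of_mul_le_mul_left this hRpos
  obtain ⟨v, hv⟩ : ∃ v : ℝ, v = n + b / (2 * a) := ⟨_, rfl⟩
  have hv1 : (n : ℝ) / 2 ≤ v := by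
    have : |(b : ℝ) / (2 * a)| ≤ n / 2 := by
      rw [abs_div, abs_of_pos (by linarith : (0 : ℝ) < 2 * a), div_le_div_iff₀ (by linarith) (by norm_num)]
      nlinarith [abs_nonneg (b : ℝ)]
    have := (abs_le.1 this).1
    rw [hv]; linarith
  have hnpos : (0 : ℝ) < n := by
    have : 0 < n := by omega
    exact_mod_cast this
  have h0r : (0 : ℝ) < (N : ℝ) - (a * n ^ 2 + b * n) := by
    have : ((0 : ℤ) : ℝ) < (((N : ℤ) - fv a b 0 n : ℤ) : ℝ) := by exact_mod_cast h0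
    unfold fv at this
    push_cast at this
    linarith
  have h1r : (N : ℝ) - (a * n ^ 2 + b * n) ≤ C := by
    have : (((N : ℤ) - fv a b 0 n : ℤ) : ℝ) ≤ ((C : ℤ) : ℝ) := by exact_mod_cast h1
    unfold fv at this
    push_cast at this
    linarith
  obtain ⟨w, hw⟩ : ∃ w : ℝ, w = √((N : ℝ) / a + (b : ℝ) ^ 2 / (4 * (a : ℝ) ^ 2)) := ⟨_, rfl⟩
  have hw0 : 0 ≤ w := by rw [hw]; exact Real.sqrt_nonneg _
  have hw2 : w ^ 2 = N / a + (b : ℝ) ^ 2 / (4 * (a : ℝ) ^ 2) := by rw [hw, Real.sq_sqrt (by positivity)]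
  have e1 : (w - v) * (w + v) = ((N : ℝ) - (a * n ^ 2 + b * n)) / a := by
    have : (w - v) * (w + v) = w ^ 2 - v ^ 2 := by ring
    rw [this, hw2, hv]
    field_simp
    ring
  have q1 : 0 < ((N : ℝ) - (a * n ^ 2 + b * n)) / a := by positivity
  have q2 : ((N : ℝ) - (a * n ^ 2 + b * n)) / a ≤ C := (div_le_self h0r.le har).trans h1r
  have hwv : 0 < w - v := by
    by_contra hcon
    push Not at hcon
    have : (w - v) * (w + v) ≤ 0 := mul_nonpos_of_nonpos_of_nonneg hcon (by linarith)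
    linarith
  have e5 : (n : ℝ) - (√((N : ℝ) / a + (b : ℝ) ^ 2 / (4 * (a : ℝ) ^ 2)) - b / (2 * a)) = -(w - v) := by
    rw [hv, ← hw]; ring
  rw [e5, abs_neg, abs_of_pos hwv]
  have e6 : (R : ℝ) * (C / x) = R * C / x := by ring
  rw [e6, le_div_iff₀ (by linarith)]
  have e7 : (w - v) * n ≤ C := by
    calc (w - v) * n ≤ (w - v) * (w + v) := mul_le_mul_of_nonneg_left (by linarith) hwv.le
      _ ≤ C := by rw [e1]; exact q2
  calc (w - v) * x ≤ (w - v) * (R * n) := mul_le_mul_of_nonneg_left hRn hwv.le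
    _ = R * ((w - v) * n) := by ring
    _ ≤ R * C := mul_le_mul_of_nonneg_left e7 hR0

lemma nu_leU (a b : ℤ) (ha : 0 < a) (R x1 x C N : ℕ) (hx1 : x ≤ R * x1) (hbx : R * b.natAbs ≤ x)
    (hx : 1 ≤ x) (δ u : ℝ) (hδ : δ = R * (C / x)) (hδ1 : δ ≤ 1 / 8) (hδ0 : 0 < δ)
    (hu : |(√((N : ℝ) / a + (b : ℝ) ^ 2 / (4 * (a : ℝ) ^ 2)) - b / (2 * a)) - u| ≤ δ) :
    (nu a b x1 x C N : ℝ) ≤ 2 * tri (4 * δ) u := by
  have hnear : ∀ n ∈ (Ioc x1 x).filter (fun n : ℕ => 0 < (N : ℤ) - fv a b 0 n ∧ (N : ℤ) - fv a b 0 n ≤ C),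
      |(n : ℝ) - u| ≤ 2 * δ := by
    intro n hn
    rw [mem_filter, mem_Ioc] at hn
    have := near_intU a b ha R x1 x C N n hx1 hbx hx hn.1.1 hn.2.1 hn.2.2
    rw [← hδ] at this
    have a1 := abs_le.1 this
    have a2 := abs_le.1 hu
    rw [abs_le]
    constructor <;> linarith [a1.1, a1.2, a2.1, a2.2]
  have hround : ∀ n : ℕ, |(n : ℝ) - u| ≤ 2 * δ → round u = (n : ℤ) := by
    intro n hn
    rw [round_eq]
    have h := abs_le.1 hn
    rw [Int.floor_eq_iff]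
    push_cast
    constructor <;> linarith
  unfold nu
  rcases Finset.eq_empty_or_nonempty ((Ioc x1 x).filter
    (fun n : ℕ => 0 < (N : ℤ) - fv a b 0 n ∧ (N : ℤ) - fv a b 0 n ≤ C)) with he | ⟨n, hn⟩
  · rw [he]
    have : 0 ≤ tri (4 * δ) u := le_max_left _ _
    simp only [Finset.card_empty, Nat.cast_zero]
    linarith
  · have h1 : #((Ioc x1 x).filter (fun n : ℕ => 0 < (N : ℤ) - fv a b 0 n ∧ (N : ℤ) - fv a b 0 n ≤ C)) ≤ 1 := by
      rw [Finset.card_le_one]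
      intro i hi j hj
      have a1 := hround i (hnear i hi)
      have a2 := hround j (hnear j hj)
      rw [a1] at a2
      exact_mod_cast a2
    have h2 : (1 : ℝ) / 2 ≤ tri (4 * δ) u := by
      unfold tri
      refine le_trans ?_ (le_max_right _ _)
      rw [hround n (hnear n hn)]
      have h3 := hnear n hn
      rw [abs_sub_comm] at h3
      push_cast
      have h4 : |u - n| / (4 * δ) ≤ 1 / 2 := by
        rw [div_le_iff₀ (by linarith)]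
        linarith
      linarith
    have h3 : (#((Ioc x1 x).filter (fun n : ℕ => 0 < (N : ℤ) - fv a b 0 n ∧ (N : ℤ) - fv a b 0 n ≤ C)) : ℝ) ≤ 1 := by
      exact_mod_cast h1
    linarith

lemma nu_leU' (a b : ℤ) (ha : 0 < a) (R x1 x C N : ℕ) (hx1 : x ≤ R * x1) (hbx : R * b.natAbs ≤ x)
    (hx : 1 ≤ x) (δ : ℝ) (hδ : δ = R * (C / x)) (hδ1 : 1 / 8 ≤ δ) :
    (nu a b x1 x C N : ℝ) ≤ 10 * δ := by
  obtain ⟨u, hu⟩ : ∃ u : ℝ, u = √((N : ℝ) / a + (b : ℝ) ^ 2 / (4 * (a : ℝ) ^ 2)) - b / (2 * a) := ⟨_, rfl⟩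
  have hnear : ∀ n ∈ (Ioc x1 x).filter (fun n : ℕ => 0 < (N : ℤ) - fv a b 0 n ∧ (N : ℤ) - fv a b 0 n ≤ C),
      |(n : ℝ) - u| ≤ δ := by
    intro n hn
    rw [mem_filter, mem_Ioc] at hn
    have := near_intU a b ha R x1 x C N n hx1 hbx hx hn.1.1 hn.2.1 hn.2.2
    rw [hu, hδ]
    exact this
  unfold nu
  have h1 : #((Ioc x1 x).filter (fun n : ℕ => 0 < (N : ℤ) - fv a b 0 n ∧ (N : ℤ) - fv a b 0 n ≤ C)) ≤
      #(Icc ⌈u - δ⌉ ⌊u + δ⌋) := by
    apply Finset.card_le_card_of_injOn (fun n : ℕ => (n : ℤ))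
    · intro n hn
      have h := abs_le.1 (hnear n hn)
      simp only [Finset.coe_Icc, Set.mem_Icc]
      rw [Int.ceil_le, Int.le_floor]
      push_cast
      constructor <;> linarith
    · intro i _ j _ hij
      simpa using hij
  have h2 : (#(Icc ⌈u - δ⌉ ⌊u + δ⌋) : ℝ) ≤ 2 * δ + 1 := by
    rw [Int.card_Icc]
    have h3 : (⌊u + δ⌋ : ℝ) ≤ u + δ := Int.floor_le _
    have h4 : u - δ ≤ (⌈u - δ⌉ : ℝ) := Int.le_ceil _
    rcases le_or_gt 0 (⌊u + δ⌋ + 1 - ⌈u - δ⌉) with h | h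
    · have h5 : (((⌊u + δ⌋ + 1 - ⌈u - δ⌉).toNat : ℤ) : ℝ) = ((⌊u + δ⌋ + 1 - ⌈u - δ⌉ : ℤ) : ℝ) := by
        rw [Int.toNat_of_nonneg h]
      have h6 : (((⌊u + δ⌋ + 1 - ⌈u - δ⌉).toNat : ℕ) : ℝ) = (⌊u + δ⌋ : ℝ) + 1 - ⌈u - δ⌉ := by
        rw [← Int.cast_natCast, h5]; push_cast; ring
      rw [h6]; linarith
    · rw [Int.toNat_of_nonpos h.le]
      simp only [Nat.cast_zero]
      linarith
  have h3 : (#((Ioc x1 x).filter (fun n : ℕ => 0 < (N : ℤ) - fv a b 0 n ∧ (N : ℤ) - fv a b 0 n ≤ C)) : ℝ) ≤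
      (#(Icc ⌈u - δ⌉ ⌊u + δ⌋) : ℝ) := by exact_mod_cast h1
  linarith

end Pool.Agent.N291.X3
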