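import Mathlib
import Pool.Agent.N291.X3.B

/-!
The sum over the blocks (helper291, subtask 5788).
-/

set_option autoImplicit false
set_option maxHeartbeats 4000000

namespace Pool.Agent.N291.X3
open Finset Filter Topology
open Pool.Agent.N792 Pool.Agent.N792.Gap

/-- the blocks of an interval -/
lemma blocks (J J1 n : ℕ) (hJ1 : 1 ≤ J1) (hn : J ≤ n * J1) (T : Finset ℕ) (hT : T ⊆ Ioc J (2 * J)) (f : ℕ → ℝ) :
    ∑ r ∈ T, f r = ∑ i ∈ range n, ∑ r ∈ T.filter (fun r => (r - J - 1) / J1 = i), f r := by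
  rw [Finset.sum_fiberwise_of_maps_to]
  intro r hr
  have h1 := mem_Ioc.1 (hT hr)
  rw [mem_range, Nat.div_lt_iff_lt_mul (by omega)]
  omega

lemma blocks_card (J J1 n : ℕ) (hJ1 : 1 ≤ J1) (hn : J ≤ n * J1) (T : Finset ℕ) (hT : T ⊆ Ioc J (2 * J)) :
    ∑ i ∈ range n, (#(T.filter (fun r => (r - J - 1) / J1 = i)) : ℝ) = #T := by
  have h := blocks J J1 n hJ1 hn T hT (fun _ => 1)
  simp only [Finset.sum_const, nsmul_eq_mul, mul_one] at h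
  exact h.symm

theorem nu_block (a : ℤ) (ha : 0 < a) (m : ℝ) (hm : 1 ≤ m) (Λ : ℝ) (hΛ : 1 ≤ Λ) : ∃ C2 : ℝ, 0 < C2 ∧
    ∀ (R x1 x C J K : ℕ) (b : ℤ) (X δ : ℝ), x ≤ R * x1 → R * b.natAbs ≤ x → 1 ≤ x → (b : ℝ) ^ 2 ≤ Λ * x → 1 ≤ X →
    δ = R * (C / x) → 0 < δ → δ ≤ 1 / 8 → 4 * (Λ * √(a : ℝ)) * X ^ 2 ≤ δ * x →
    1 ≤ J → 1 ≤ K → (J : ℝ) * K ≤ m * (x : ℝ) ^ 2 → (J : ℝ) ≤ m * (x * X) →
    (K : ℝ) ≤ m * (x * X) → (x : ℝ) ≤ 4 * K * X → (x : ℝ) ≤ 4 * J * X →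
    ∀ T ⊆ Ioc J (2 * J), ∀ S ⊆ Ioc K (2 * K),
    ∑ r ∈ T, ∑ s ∈ S, (nu a b x1 x C (r * s) : ℝ) ≤ 8 * δ * (#T * #S) + C2 * (√((x : ℝ) ^ 3 * X ^ 3) * X) / √δ := by
  have har : (1 : ℝ) ≤ a := by exact_mod_cast ha
  obtain ⟨D, hD⟩ : ∃ D : ℝ, D = 9600 * m * (1 + 2 * √m * √(a : ℝ)) * (2 * m * √m) := ⟨_, rfl⟩
  have hsa : 1 ≤ √(a : ℝ) := by rw [Real.one_le_sqrt]; exact har
  have hsm : 1 ≤ √m := by rw [Real.one_le_sqrt]; exact hm
  have hD0 : 0 < D := by rw [hD]; positivity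
  obtain ⟨L0, hL0⟩ : ∃ L0 : ℝ, L0 = Λ * √(a : ℝ) := ⟨_, rfl⟩
  have hL01 : 1 ≤ L0 := by rw [hL0]; exact one_le_mul_of_one_le_of_one_le hΛ hsa
  refine ⟨√D * (80 + 320 * L0), by positivity, ?_⟩
  intro R x1 x C J K b X δ hxR hbx hx hb hX hδ hδ0 hδ8 hδx hJ hK hJK hJm hKm hKx hJx T hT S hS
  rw [← hL0] at hδx
  have hxr : (1 : ℝ) ≤ x := by exact_mod_cast hx
  have hJr : (1 : ℝ) ≤ J := by exact_mod_cast hJ
  have hKr : (1 : ℝ) ≤ K := by exact_mod_cast hK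
  have hX0 : 0 < X := by linarith
  obtain ⟨ρ, hρ⟩ : ∃ ρ : ℝ, ρ = δ / (L0 * X) := ⟨_, rfl⟩
  have hL0X : 1 ≤ L0 * X := one_le_mul_of_one_le_of_one_le hL01 hX
  have hρ0 : 0 < ρ := by rw [hρ]; positivity
  have hρ1 : ρ ≤ 1 := by rw [hρ, div_le_one (by linarith)]; linarith
  have hρJ : 1 ≤ ρ * J := by
    rw [hρ, div_mul_eq_mul_div, le_div_iff₀ (by linarith), one_mul]
    have h1 : δ * x ≤ δ * (4 * J * X) := mul_le_mul_of_nonneg_left hJx hδ0.le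
    have h2 : 4 * X * (L0 * X) ≤ 4 * X * (δ * J) := by
      calc 4 * X * (L0 * X) = 4 * L0 * X ^ 2 := by ring
        _ ≤ δ * x := hδx
        _ ≤ δ * (4 * J * X) := h1
        _ = _ := by ring
    exact le_of_mul_le_mul_left h2 (by positivity)
  obtain ⟨J1, hJ1⟩ : ∃ J1 : ℕ, J1 = ⌊ρ * J⌋₊ := ⟨_, rfl⟩
  have hJ11 : 1 ≤ J1 := by rw [hJ1]; exact Nat.le_floor (by simpa using hρJ)
  have hJ1ρ : (J1 : ℝ) ≤ ρ * J := by rw [hJ1]; exact Nat.floor_le (by positivity)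
  have hJ1ρ' : ρ * J ≤ 2 * J1 := by
    have h1 := Nat.lt_floor_add_one (ρ * J)
    rw [← hJ1] at h1
    have h2 : (1 : ℝ) ≤ J1 := by exact_mod_cast hJ11
    linarith
  have hJ1J : J1 ≤ J := by
    have h1 : (J1 : ℝ) ≤ J := hJ1ρ.trans (mul_le_of_le_one_left (by linarith) hρ1)
    exact_mod_cast h1
  have hJ1r : (0 : ℝ) < J1 := by exact_mod_cast (show 0 < J1 by omega)
  obtain ⟨n, hn⟩ : ∃ n : ℕ, n = J / J1 + 1 := ⟨_, rfl⟩
  have hnJ : J ≤ n * J1 := by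
    rw [hn, Nat.add_mul, one_mul]
    have h1 := Nat.div_add_mod J J1
    have h2 := Nat.mod_lt J (show 0 < J1 by omega)
    rw [Nat.mul_comm] at h1
    omega
  have hnρ : (n : ℝ) * ρ ≤ 4 := by
    have h1 : (n : ℝ) ≤ J / J1 + 1 := by
      rw [hn]; push_cast
      have := @Nat.cast_div_le ℝ _ _ _ J J1
      linarith
    have h2 : (n : ℝ) * J1 ≤ 2 * J := by
      have h3 : (J1 : ℝ) ≤ J := by exact_mod_cast hJ1J
      calc (n : ℝ) * J1 ≤ (J / J1 + 1) * J1 := mul_le_mul_of_nonneg_right h1 hJ1r.le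
        _ = J + J1 := by field_simp
        _ ≤ _ := by linarith
    have h3 : (n : ℝ) * ρ * J ≤ 4 * J := by
      calc (n : ℝ) * ρ * J = n * (ρ * J) := by ring
        _ ≤ n * (2 * J1) := mul_le_mul_of_nonneg_left hJ1ρ' (Nat.cast_nonneg _)
        _ = 2 * (n * J1) := by ring
        _ ≤ _ := by linarith
    exact le_of_mul_le_mul_right h3 (by linarith)
  -- the correction
  obtain ⟨κ, hκ⟩ : ∃ κ : ℝ, κ = (b : ℝ) ^ 2 / (4 * (a : ℝ) ^ 2) := ⟨_, rfl⟩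
  have hκ0 : 0 ≤ κ := by rw [hκ]; positivity
  have hκΛ : κ ≤ Λ * x / 4 := by
    rw [hκ, div_le_div_iff₀ (by positivity) (by norm_num)]
    have h1 : (1 : ℝ) ≤ (a : ℝ) ^ 2 := one_le_pow₀ har
    have h2 : (b : ℝ) ^ 2 * 4 ≤ Λ * x * 4 := by linarith
    have h3 : 0 ≤ Λ * x * 4 := by positivity
    calc (b : ℝ) ^ 2 * 4 ≤ Λ * x * 4 * 1 := by linarith
      _ ≤ Λ * x * 4 * (a : ℝ) ^ 2 := mul_le_mul_of_nonneg_left h1 h3
      _ = _ := by ring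
  obtain ⟨U, hU⟩ : ∃ U : ℝ, U = √((J : ℝ) * K / a) := ⟨_, rfl⟩
  have hU2 : a * U ^ 2 = J * K := by
    rw [hU, Real.sq_sqrt (by positivity)]; field_simp
  have hU0 : 0 < U := by rw [hU]; exact Real.sqrt_pos.2 (by positivity)
  have hUx : x ≤ 4 * X * √(a : ℝ) * U := by
    have h1 : (x : ℝ) ^ 2 ≤ (4 * X * √(a : ℝ) * U) ^ 2 := by
      have e1 : (4 * X * √(a : ℝ) * U) ^ 2 = (4 * J * X) * (4 * K * X) := by
        have : (4 * X * √(a : ℝ) * U) ^ 2 = 16 * X ^ 2 * (√(a : ℝ) ^ 2 * U ^ 2) := by ring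
        rw [this, Real.sq_sqrt (by linarith), hU2]; ring
      rw [e1, pow_two]
      exact mul_le_mul hJx hKx (by linarith) (by positivity)
    exact (abs_le_of_sq_le_sq' h1 (by positivity)).2
  have hcorr : ∀ r r0 s : ℕ, J ≤ r → J ≤ r0 → K ≤ s → s ≤ 2 * K → r0 ≤ r → r ≤ r0 + J1 →
      |(√(((r * s : ℕ) : ℝ) / a + κ) - √(((r * s : ℕ) : ℝ) / a)) -
        (√(((r0 * s : ℕ) : ℝ) / a + κ) - √(((r0 * s : ℕ) : ℝ) / a))| ≤ δ := by
    intro r r0 s hr hr0 hs hs2 hrr hrr1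
    have hJr' : (J : ℝ) * K ≤ ((r * s : ℕ) : ℝ) := by exact_mod_cast Nat.mul_le_mul hr hs
    have hJr0' : (J : ℝ) * K ≤ ((r0 * s : ℕ) : ℝ) := by exact_mod_cast Nat.mul_le_mul hr0 hs
    have h1 := corr a κ U ((r * s : ℕ) : ℝ) ((r0 * s : ℕ) : ℝ) (by linarith) hκ0 hU0 (by rw [hU2]; exact hJr')
      (by rw [hU2]; exact hJr0')
    refine h1.trans ?_
    have h2 : |((r * s : ℕ) : ℝ) - ((r0 * s : ℕ) : ℝ)| ≤ ρ * J * (2 * K) := by
      have e1 : ((r * s : ℕ) : ℝ) - ((r0 * s : ℕ) : ℝ) = ((r : ℝ) - r0) * s := by push_cast; ring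
      have e2 : (0 : ℝ) ≤ (r : ℝ) - r0 := by
        have : (r0 : ℝ) ≤ r := by exact_mod_cast hrr
        linarith
      have e3 : (r : ℝ) - r0 ≤ ρ * J := by
        have : (r : ℝ) ≤ r0 + J1 := by exact_mod_cast hrr1
        linarith
      have e4 : (s : ℝ) ≤ 2 * K := by exact_mod_cast hs2
      rw [e1, abs_of_nonneg (mul_nonneg e2 (Nat.cast_nonneg _))]
      exact mul_le_mul e3 e4 (Nat.cast_nonneg _) (by positivity)
    have e5 : 4 * a * U ^ 3 = 4 * (J * K) * U := by rw [← hU2]; ring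
    rw [e5, div_le_iff₀ (by positivity)]
    calc κ * |((r * s : ℕ) : ℝ) - ((r0 * s : ℕ) : ℝ)| ≤ (Λ * x / 4) * (ρ * J * (2 * K)) := by gcongr
      _ ≤ (Λ * (4 * X * √(a : ℝ) * U) / 4) * (ρ * J * (2 * K)) := by gcongr
      _ = (Λ * √(a : ℝ)) * X * ρ * (2 * (J * K) * U) := by ring
      _ = δ * (2 * (J * K) * U) := by
          rw [← hL0, hρ]; field_simp
      _ ≤ δ * (4 * (J * K) * U) := by
          apply mul_le_mul_of_nonneg_left _ hδ0.le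
          have : 0 < (J : ℝ) * K * U := by positivity
          linarith
  -- one block
  obtain ⟨W, hW⟩ : ∃ W : ℝ, W = √(D * ((x : ℝ) ^ 3 * X ^ 3)) := ⟨_, rfl⟩
  have hW0 : 0 ≤ W := by rw [hW]; positivity
  have hone : ∀ i ∈ range n, ∑ r ∈ T.filter (fun r => (r - J - 1) / J1 = i), ∑ s ∈ S, (nu a b x1 x C (r * s) : ℝ) ≤
      8 * δ * (#(T.filter (fun r => (r - J - 1) / J1 = i)) * #S) + 40 * (W * ρ / √(4 * δ) + W * √(4 * δ)) := by
    intro i _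
    obtain ⟨r0, hr0⟩ : ∃ r0 : ℕ, r0 = J + i * J1 := ⟨_, rfl⟩
    have hmem : ∀ r ∈ T.filter (fun r => (r - J - 1) / J1 = i), r0 < r ∧ r ≤ r0 + J1 := by
      intro r hr
      obtain ⟨h1, h2⟩ := mem_filter.1 hr
      have h3 := mem_Ioc.1 (hT h1)
      have h4 := Nat.div_add_mod (r - J - 1) J1
      have h5 := Nat.mod_lt (r - J - 1) (show 0 < J1 by omega)
      rw [h2, Nat.mul_comm] at h4
      rw [hr0]
      omega
    have h1 : ∑ r ∈ T.filter (fun r => (r - J - 1) / J1 = i), ∑ s ∈ S, (nu a b x1 x C (r * s) : ℝ) ≤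
        2 * ∑ r ∈ T.filter (fun r => (r - J - 1) / J1 = i), ∑ s ∈ S, tri (4 * δ) (√(((r * s : ℕ) : ℝ) / a) +
          ((√(((r0 * s : ℕ) : ℝ) / a + κ) - √(((r0 * s : ℕ) : ℝ) / a)) - b / (2 * a))) := by
      rw [Finset.mul_sum]
      refine Finset.sum_le_sum fun r hr => ?_
      rw [Finset.mul_sum]
      refine Finset.sum_le_sum fun s hs => ?_
      apply nu_leU a b ha R x1 x C (r * s) hxR hbx hx δ _ hδ hδ8 hδ0
      rw [← hκ]
      obtain ⟨g1, g2⟩ := hmem r hr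
      have g3 := mem_Ioc.1 (hS hs)
      have g4 := hcorr r r0 s (by omega) (by omega) (by omega) g3.2 g1.le g2
      have e1 : √(((r * s : ℕ) : ℝ) / a + κ) - b / (2 * a) - (√(((r * s : ℕ) : ℝ) / a) +
          ((√(((r0 * s : ℕ) : ℝ) / a + κ) - √(((r0 * s : ℕ) : ℝ) / a)) - b / (2 * a))) =
          (√(((r * s : ℕ) : ℝ) / a + κ) - √(((r * s : ℕ) : ℝ) / a)) -
          (√(((r0 * s : ℕ) : ℝ) / a + κ) - √(((r0 * s : ℕ) : ℝ) / a)) := by ring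
      rw [e1]
      exact g4
    have h2 := tri_blk a m x X ρ D har hm J K r0 J1 hxr hX hD hρ0 hJ hK (by omega) hJ11 hJ1ρ hJK hJm hKm hKx hJx
      (T.filter (fun r => (r - J - 1) / J1 = i)) S
      (fun s => (√(((r0 * s : ℕ) : ℝ) / a + κ) - √(((r0 * s : ℕ) : ℝ) / a)) - b / (2 * a)) hmem
      (fun r hr => (mem_Ioc.1 (hT (mem_filter.1 hr).1)).2) (fun s hs => mem_Ioc.1 (hS hs)) (4 * δ) (by linarith)
      (by linarith)
    rw [← hW] at h2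
    linarith
  rw [blocks J J1 n hJ11 hnJ T hT]
  refine (Finset.sum_le_sum hone).trans ?_
  rw [Finset.sum_add_distrib, Finset.sum_const, card_range, nsmul_eq_mul, ← Finset.mul_sum, ← Finset.sum_mul,
    blocks_card J J1 n hJ11 hnJ T hT]
  have hsd : 0 < √δ := Real.sqrt_pos.2 hδ0
  have hs4 : √(4 * δ) = 2 * √δ := by
    rw [Real.sqrt_mul (by norm_num)]
    congr 1
    rw [show (4 : ℝ) = 2 ^ 2 by norm_num]
    exact Real.sqrt_sq (by norm_num)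
  have hfin : (n : ℝ) * (40 * (W * ρ / √(4 * δ) + W * √(4 * δ))) ≤ (80 + 320 * L0) * W * X / √δ := by
    rw [hs4]
    have hn4 : (n : ℝ) ≤ 4 / ρ := by rw [le_div_iff₀ hρ0]; exact hnρ
    calc (n : ℝ) * (40 * (W * ρ / (2 * √δ) + W * (2 * √δ))) ≤ 4 / ρ * (40 * (W * ρ / (2 * √δ) + W * (2 * √δ))) :=
          mul_le_mul_of_nonneg_right hn4 (by positivity)
      _ = 80 * W / √δ + 320 * W * (√δ / ρ) := by field_simp; ring
      _ = 80 * W / √δ + 320 * W * (L0 * X / √δ) := by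
          congr 2
          rw [hρ, div_div_eq_mul_div]
          rw [div_eq_div_iff (by positivity) (by positivity)]
          have : √δ * √δ = δ := Real.mul_self_sqrt hδ0.le
          calc √δ * (L0 * X) * √δ = (√δ * √δ) * (L0 * X) := by ring
            _ = _ := by rw [this]; ring
      _ ≤ 80 * W * X / √δ + 320 * W * (L0 * X / √δ) := by
          have g1 : 80 * W ≤ 80 * W * X := le_mul_of_one_le_right (by positivity) hX
          have g2 := div_le_div_of_nonneg_right g1 hsd.le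
          linarith
      _ = _ := by ring
  have hWeq : (80 + 320 * L0) * W * X / √δ = √D * (80 + 320 * L0) * (√((x : ℝ) ^ 3 * X ^ 3) * X) / √δ := by
    rw [hW, Real.sqrt_mul hD0.le]; ring
  rw [hWeq] at hfin
  linarith

end Pool.Agent.N291.X3
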